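import Mathlib

set_option autoImplicit false

open Filter Topology

namespace Pool.Agent.H.MP_613746_an

/-- block types: direction flag, symbol, index -/
abbrev T : Type := Bool × Bool × ℤ

def NN : ℕ → ℤ
  | 0 => 1
  | m + 1 => 4 * NN m * NN m

lemma NN_pos (m : ℕ) : 0 < NN m := by
  induction m with
  | zero => simp [NN]
  | succ m ih => simp only [NN]; positivity

lemma NN_ge (m : ℕ) : (m : ℤ) < NN m := by
  induction m with
  | zero => simp [NN]
  | succ m ih =>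
    simp only [NN]; push_cast
    have := NN_pos m
    nlinarith

def sig (N : ℤ) (t : T) (a b : ℤ) : T :=
  if t.1 then
    (if a = t.2.2 / N then (true, t.2.1, t.2.2 % N) else (false, decide (a % 2 = 0), (a / 2) % N))
  else
    (if b = t.2.2 / N then (false, t.2.1, t.2.2 % N) else (true, decide (b % 2 = 0), (b / 2) % N))

def sub (N : ℤ) (τ : ℤ × ℤ → T) (p : ℤ × ℤ) : T :=
  sig N (τ (p.1 / (4 * N), p.2 / (4 * N))) (p.1 % (4 * N)) (p.2 % (4 * N))

def Phi : ℕ → (ℤ × ℤ → T) → (ℤ × ℤ → Bool)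
  | 0, τ => fun p => (τ p).2.1
  | m + 1, τ => Phi m (sub (NN m) τ)

lemma sub_apply {N : ℤ} (hN : 0 < N) (τ : ℤ × ℤ → T) (a b v w : ℤ) (hv0 : 0 ≤ v) (hv : v < 4 * N)
    (hw0 : 0 ≤ w) (hw : w < 4 * N) :
    sub N τ (a * (4 * N) + v, b * (4 * N) + w) = sig N (τ (a, b)) v w := by
  have h4 : (4 * N) ≠ 0 := by positivity
  unfold sub
  simp only
  rw [add_comm (a * _), add_comm (b * _), Int.add_mul_ediv_right _ _ h4,
    Int.add_mul_ediv_right _ _ h4, Int.add_mul_emod_self_right, Int.add_mul_emod_self_right,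
    Int.ediv_eq_zero_of_lt hv0 hv, Int.ediv_eq_zero_of_lt hw0 hw, Int.emod_eq_of_lt hv0 hv,
    Int.emod_eq_of_lt hw0 hw, zero_add, zero_add]

lemma div_bounds {N u : ℤ} (hN : 0 < N) (h0 : 0 ≤ u) (h1 : u < 4 * N * N) :
    0 ≤ u / N ∧ u / N < 4 * N ∧ 0 ≤ u % N ∧ u % N < N ∧ u = u / N * N + u % N :=
  ⟨Int.ediv_nonneg h0 hN.le, Int.ediv_lt_of_lt_mul hN h1, Int.emod_nonneg _ hN.ne',
    Int.emod_lt_of_pos _ hN, by rw [mul_comm]; exact (Int.mul_ediv_add_emod u N).symm⟩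

lemma row_const (m : ℕ) : ∀ (τ : ℤ × ℤ → T) (a b : ℤ) (s : Bool) (r u : ℤ), 0 ≤ r → r < NN m →
    0 ≤ u → u < NN m → τ (a, b) = (false, s, r) → Phi m τ (a * NN m + u, b * NN m + r) = s := by
  induction m with
  | zero =>
    intro τ a b s r u r0 r1 u0 u1 h
    simp only [NN] at *
    have hr : r = 0 := by omega
    have hu : u = 0 := by omega
    simp [Phi, hr, hu, h]
  | succ m ih =>
    intro τ a b s r u r0 r1 u0 u1 h
    simp only [NN] at r1 u1
    have hN := NN_pos m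
    obtain ⟨a1, a2, a3, a4, a5⟩ := div_bounds hN r0 r1
    obtain ⟨b1, b2, b3, b4, b5⟩ := div_bounds hN u0 u1
    have e : (a * NN (m + 1) + u, b * NN (m + 1) + r) =
        ((a * (4 * NN m) + u / NN m) * NN m + u % NN m,
          (b * (4 * NN m) + r / NN m) * NN m + r % NN m) := by
      simp only [NN]
      ext
      · simp only; linear_combination b5
      · simp only; linear_combination a5
    rw [e]
    refine ih _ _ _ s _ _ a3 a4 b3 b4 ?_
    rw [sub_apply hN τ a b _ _ b1 b2 a1 a2, h]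
    simp [sig]

lemma col_const (m : ℕ) : ∀ (τ : ℤ × ℤ → T) (a b : ℤ) (s : Bool) (r u : ℤ), 0 ≤ r → r < NN m →
    0 ≤ u → u < NN m → τ (a, b) = (true, s, r) → Phi m τ (a * NN m + r, b * NN m + u) = s := by
  induction m with
  | zero =>
    intro τ a b s r u r0 r1 u0 u1 h
    simp only [NN] at *
    have hr : r = 0 := by omega
    have hu : u = 0 := by omega
    simp [Phi, hr, hu, h]
  | succ m ih =>
    intro τ a b s r u r0 r1 u0 u1 h
    simp only [NN] at r1 u1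
    have hN := NN_pos m
    obtain ⟨a1, a2, a3, a4, a5⟩ := div_bounds hN r0 r1
    obtain ⟨b1, b2, b3, b4, b5⟩ := div_bounds hN u0 u1
    have e : (a * NN (m + 1) + r, b * NN (m + 1) + u) =
        ((a * (4 * NN m) + r / NN m) * NN m + r % NN m,
          (b * (4 * NN m) + u / NN m) * NN m + u % NN m) := by
      simp only [NN]
      ext
      · simp only; linear_combination a5
      · simp only; linear_combination b5
    rw [e]
    refine ih _ _ _ s _ _ a3 a4 b3 b4 ?_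
    rw [sub_apply hN τ a b _ _ a1 a2 b1 b2, h]
    simp [sig]

lemma rich {N : ℤ} (a0 r : ℤ) (s : Bool) (r0 : 0 ≤ r) (r1 : r < N) :
    ∃ v, 0 ≤ v ∧ v < 4 * N ∧ v ≠ a0 ∧ decide (v % 2 = 0) = s ∧ (v / 2) % N = r := by
  have key : ∀ e : ℤ, (e = 0 ∨ e = 1) → ∃ v, 0 ≤ v ∧ v < 4 * N ∧ v ≠ a0 ∧ v % 2 = e ∧
      (v / 2) % N = r := by
    intro e he
    by_cases h : 2 * r + e = a0
    · refine ⟨2 * (r + N) + e, by omega, by omega, by omega, by omega, ?_⟩
      have : (2 * (r + N) + e) / 2 = r + N := by omega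
      rw [this, Int.add_emod_right, Int.emod_eq_of_lt r0 r1]
    · refine ⟨2 * r + e, by omega, by omega, h, by omega, ?_⟩
      have : (2 * r + e) / 2 = r := by omega
      rw [this, Int.emod_eq_of_lt r0 r1]
  cases s
  · obtain ⟨v, h1, h2, h3, h4, h5⟩ := key 1 (Or.inr rfl)
    exact ⟨v, h1, h2, h3, by simp [h4], h5⟩
  · obtain ⟨v, h1, h2, h3, h4, h5⟩ := key 0 (Or.inl rfl)
    exact ⟨v, h1, h2, h3, by simp [h4], h5⟩

/-- long runs of both symbols in the row through `p`, near `p` -/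
def RowP (m : ℕ) (x : ℤ × ℤ → Bool) (p : ℤ × ℤ) : Prop :=
  ∀ s : Bool, ∃ c ∈ Set.Icc (-NN (m + 1)) (NN (m + 1)), ∀ u ∈ Set.Ico 0 (NN m),
    x (p.1 + c + u, p.2) = s

def ColP (m : ℕ) (x : ℤ × ℤ → Bool) (p : ℤ × ℤ) : Prop :=
  ∀ s : Bool, ∃ c ∈ Set.Icc (-NN (m + 1)) (NN (m + 1)), ∀ u ∈ Set.Ico 0 (NN m),
    x (p.1, p.2 + c + u) = s

lemma decomp {N : ℤ} (hN : 0 < N) (i : ℤ) : ∃ a v i0 : ℤ, 0 ≤ v ∧ v < 4 * N ∧ 0 ≤ i0 ∧ i0 < N ∧
    i = (a * (4 * N) + v) * N + i0 := by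
  have h4 : 0 < 4 * N := by positivity
  refine ⟨i / N / (4 * N), i / N % (4 * N), i % N, Int.emod_nonneg _ h4.ne',
    Int.emod_lt_of_pos _ h4, Int.emod_nonneg _ hN.ne', Int.emod_lt_of_pos _ hN, ?_⟩
  have h1 := Int.mul_ediv_add_emod i N
  have h2 := Int.mul_ediv_add_emod (i / N) (4 * N)
  linear_combination -h1 - N * h2

lemma step (m : ℕ) (τ : ℤ × ℤ → T) (p : ℤ × ℤ) :
    RowP m (Phi (m + 1) τ) p ∨ ColP m (Phi (m + 1) τ) p := by
  have hN := NN_pos m
  obtain ⟨a, v, i0, v0, v1, i1, i2, hi⟩ := decomp hN p.1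
  obtain ⟨b, w, j0, w0, w1, j1, j2, hj⟩ := decomp hN p.2
  cases hd : (τ (a, b)).1
  · right
    intro s
    obtain ⟨w', h1, h2, h3, h4, h5⟩ := rich ((τ (a, b)).2.2 / NN m) i0 s i1 i2
    refine ⟨(w' - w) * NN m - j0, ⟨?_, ?_⟩, fun u hu => ?_⟩
    · simp only [NN]; nlinarith
    · simp only [NN]; nlinarith
    · have e : (p.1, p.2 + ((w' - w) * NN m - j0) + u) =
          ((a * (4 * NN m) + v) * NN m + i0, (b * (4 * NN m) + w') * NN m + u) := by
        ext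
        · exact hi
        · simp only; linear_combination hj
      rw [e]
      refine col_const m _ _ _ s _ _ i1 i2 hu.1 hu.2 ?_
      rw [sub_apply hN τ a b _ _ v0 v1 h1 h2]
      simp only [sig, hd, h3, h4, h5]
      simp
  · left
    intro s
    obtain ⟨v', h1, h2, h3, h4, h5⟩ := rich ((τ (a, b)).2.2 / NN m) j0 s j1 j2
    refine ⟨(v' - v) * NN m - i0, ⟨?_, ?_⟩, fun u hu => ?_⟩
    · simp only [NN]; nlinarith
    · simp only [NN]; nlinarith
    · have e : (p.1 + ((v' - v) * NN m - i0) + u, p.2) =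
          ((a * (4 * NN m) + v') * NN m + u, (b * (4 * NN m) + w) * NN m + j0) := by
        ext
        · simp only; linear_combination hi
        · exact hj
      rw [e]
      refine row_const m _ _ _ s _ _ j1 j2 hu.1 hu.2 ?_
      rw [sub_apply hN τ a b _ _ h1 h2 w0 w1]
      simp only [sig, hd, h3, h4, h5]
      simp

lemma lift (m k : ℕ) (τ : ℤ × ℤ → T) : ∃ τ', Phi (m + k) τ = Phi m τ' := by
  induction k generalizing τ with
  | zero => exact ⟨τ, rfl⟩
  | succ k ih => exact ih (sub (NN (m + k)) τ)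

def XS (m : ℕ) : Set (ℤ × ℤ → Bool) := {x | ∀ p, RowP m x p ∨ ColP m x p}

lemma closed_run (A B : Set ℤ) (hA : A.Finite) (q : ℤ → ℤ → ℤ × ℤ) :
    IsClosed {x : ℤ × ℤ → Bool | ∀ s : Bool, ∃ c ∈ A, ∀ u ∈ B, x (q c u) = s} := by
  have : {x : ℤ × ℤ → Bool | ∀ s : Bool, ∃ c ∈ A, ∀ u ∈ B, x (q c u) = s} =
      ⋂ s : Bool, ⋃ c ∈ A, ⋂ u ∈ B, {x | x (q c u) = s} := by
    ext x; simp
  rw [this]
  refine isClosed_iInter fun s => hA.isClosed_biUnion fun c _ => isClosed_biInter fun u _ => ?_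
  exact isClosed_eq (continuous_apply _) continuous_const

lemma XS_closed (m : ℕ) : IsClosed (XS m) := by
  have : XS m = ⋂ p, ({x | RowP m x p} ∪ {x | ColP m x p}) := by
    ext x; simp [XS]
  rw [this]
  refine isClosed_iInter fun p => IsClosed.union ?_ ?_
  · exact closed_run _ _ (Set.finite_Icc _ _) (fun c u => (p.1 + c + u, p.2))
  · exact closed_run _ _ (Set.finite_Icc _ _) (fun c u => (p.1, p.2 + c + u))

def XX : Set (ℤ × ℤ → Bool) := ⋂ m, XS m

lemma XX_closed : IsClosed XX := isClosed_iInter XS_closed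

lemma XX_nonempty : XX.Nonempty := by
  have h := IsCompact.nonempty_iInter_of_sequence_nonempty_isCompact_isClosed
    (fun n => ⋂ m ∈ Set.Iic n, XS m) ?_ ?_ ?_ ?_
  · obtain ⟨x, hx⟩ := h
    refine ⟨x, Set.mem_iInter.mpr fun m => ?_⟩
    have := Set.mem_iInter.mp hx m
    exact Set.mem_iInter₂.mp this m (le_refl m)
  · intro n
    exact Set.biInter_subset_biInter_left fun m hm => Nat.le_succ_of_le hm
  · intro n
    refine ⟨Phi (n + 1) (fun _ => (true, true, 0)), Set.mem_iInter₂.mpr fun m hm => ?_⟩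
    obtain ⟨k, rfl⟩ := Nat.exists_eq_add_of_le (show m ≤ n from hm)
    obtain ⟨τ', h⟩ := lift (m + 1) k (fun _ => (true, true, 0))
    rw [show m + k + 1 = m + 1 + k by ring, h]
    exact fun p => step m τ' p
  · exact (isClosed_biInter fun m _ => XS_closed m).isCompact
  · exact fun n => isClosed_biInter fun m _ => XS_closed m

def shift (q : ℤ × ℤ) (x : ℤ × ℤ → Bool) : ℤ × ℤ → Bool := fun p => x (p + q)

lemma shift_mem (q : ℤ × ℤ) {x : ℤ × ℤ → Bool} (hx : x ∈ XX) : shift q x ∈ XX := by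
  refine Set.mem_iInter.mpr fun m p => ?_
  rcases Set.mem_iInter.mp hx m (p + q) with h | h
  · left
    intro s
    obtain ⟨c, hc, h1⟩ := h s
    refine ⟨c, hc, fun u hu => ?_⟩
    rw [← h1 u hu]
    simp only [shift]
    congr 1
    ext
    · simp; ring
    · simp
  · right
    intro s
    obtain ⟨c, hc, h1⟩ := h s
    refine ⟨c, hc, fun u hu => ?_⟩
    rw [← h1 u hu]
    simp only [shift]
    congr 1
    ext
    · simp
    · simp; ring

def sh (q : ℤ × ℤ) (x : XX) : XX := ⟨shift q x.1, shift_mem q x.2⟩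

lemma ev_cont (p : ℤ × ℤ) : Continuous fun y : XX => y.1 p :=
  (continuous_apply p).comp continuous_subtype_val

lemma sh_cont (q : ℤ × ℤ) : Continuous (sh q) := by
  unfold sh
  exact Continuous.subtype_mk (continuous_pi fun p => ev_cont (p + q)) _

lemma sh_iter (q : ℤ × ℤ) (k : ℕ) (x : XX) (p : ℤ × ℤ) :
    ((sh q)^[k] x).1 p = x.1 (p + (k : ℤ) • q) := by
  induction k generalizing p with
  | zero => simp
  | succ k ih =>
    rw [Function.iterate_succ_apply']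
    change ((sh q)^[k] x).1 (p + q) = _
    have e : p + q + (k : ℤ) • q = p + ((k + 1 : ℕ) : ℤ) • q := by
      push_cast
      rw [add_smul, one_smul]; abel
    rw [ih, e]

/-- uniform recurrence forbids long runs of the opposite symbol on the line -/
lemma no_run (q : ℤ × ℤ) (x : XX)
    (h : ∀ U ∈ 𝓝 x, ∃ N : ℕ, ∀ m : ℕ, ∃ k : ℕ, m ≤ k ∧ k ≤ m + N ∧ (sh q)^[k] x ∈ U) :
    ∃ N : ℕ, ∀ c : ℤ, ∃ u : ℤ, 0 ≤ u ∧ u ≤ N ∧ x.1 ((c + u) • q) = x.1 0 := by
  have ho : ∀ p : ℤ × ℤ, {y : XX | y.1 p = x.1 p} ∈ 𝓝 x := fun p => by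
    refine IsOpen.mem_nhds ?_ rfl
    exact (isOpen_discrete {x.1 p}).preimage (ev_cont p)
  obtain ⟨N, hN⟩ := h _ (ho 0)
  refine ⟨N, fun c => ?_⟩
  have hU : (⋂ u ∈ Set.Icc (0 : ℤ) N, {y : XX | y.1 ((c + u) • q) = x.1 ((c + u) • q)}) ∈ 𝓝 x :=
    (biInter_mem (Set.finite_Icc _ _)).mpr fun u _ => ho _
  obtain ⟨N', hN'⟩ := h _ hU
  obtain ⟨k, hk1, -, hk⟩ := hN' c.natAbs
  obtain ⟨k', h1, h2, h3⟩ := hN (k + c).toNat
  have hkc : 0 ≤ (k : ℤ) + c := by omega
  refine ⟨k' - (k + c), by omega, by omega, ?_⟩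
  have h4 := Set.mem_iInter₂.mp hk (k' - (k + c)) ⟨by omega, by omega⟩
  simp only [Set.mem_ofPred_eq, sh_iter] at h3 h4
  have e : (c + ((k' : ℤ) - (k + c))) • q + (k : ℤ) • q = 0 + (k' : ℤ) • q := by
    rw [← add_smul, zero_add, show c + ((k' : ℤ) - (k + c)) + k = k' by ring]
  rw [← h4, ← h3, e]

theorem main (x : XX)
    (h1 : ∀ U ∈ 𝓝 x, ∃ N : ℕ, ∀ m : ℕ, ∃ k : ℕ, m ≤ k ∧ k ≤ m + N ∧ (sh (1, 0))^[k] x ∈ U)
    (h2 : ∀ U ∈ 𝓝 x, ∃ N : ℕ, ∀ m : ℕ, ∃ k : ℕ, m ≤ k ∧ k ≤ m + N ∧ (sh (0, 1))^[k] x ∈ U) :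
    False := by
  obtain ⟨N1, a1⟩ := no_run _ x h1
  obtain ⟨N2, a2⟩ := no_run _ x h2
  have hb := NN_ge (N1 + N2)
  push_cast at hb
  rcases Set.mem_iInter.mp x.2 (N1 + N2) 0 with h | h
  · obtain ⟨c, -, hc⟩ := h (!x.1 0)
    obtain ⟨u, u0, u1, hu⟩ := a1 c
    have := hc u ⟨u0, by omega⟩
    simp only [Prod.fst_zero, zero_add, Prod.snd_zero] at this
    simp only [Prod.smul_mk, smul_eq_mul, mul_one, mul_zero] at hu
    rw [hu] at this
    simp at this
  · obtain ⟨c, -, hc⟩ := h (!x.1 0)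
    obtain ⟨u, u0, u1, hu⟩ := a2 c
    have := hc u ⟨u0, by omega⟩
    simp only [Prod.fst_zero, zero_add, Prod.snd_zero] at this
    simp only [Prod.smul_mk, smul_eq_mul, mul_one, mul_zero] at hu
    rw [hu] at this
    simp at this

lemma sh_comm : sh (1, 0) ∘ sh (0, 1) = sh (0, 1) ∘ sh (1, 0) := by
  funext x
  apply Subtype.ext
  funext p
  simp only [Function.comp, sh, shift]
  rw [add_right_comm]

end Pool.Agent.H.MP_613746_an
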